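import Pool.Agent.N242.NT.Stm

/-! Project NT (helper242), task BAI (helper78): Baire category in the set of the singular points. -/

set_option autoImplicit false

open Metric Set Filter Topology

namespace Pool.Agent.N78.NT

open Pool.Agent.N242.NT

universe u

variable {X : Type u} [NormedAddCommGroup X] [NormedSpace ℝ X]

omit [NormedSpace ℝ X] in
theorem tri (x y b : X) : ‖x - b‖ ≤ ‖y - x‖ + ‖y - b‖ := by
  rw [norm_sub_rev y x]
  calc ‖x - b‖ = ‖(x - y) + (y - b)‖ := by congr 1; abel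
    _ ≤ _ := norm_add_le _ _

omit [NormedSpace ℝ X] in
theorem sing_closed (B : Set (X × ℝ)) : IsClosed {x | Sing B x} := by
  rw [← isOpen_compl_iff, Metric.isOpen_iff]
  intro x hx
  have hx' : ¬ Sing B x := hx
  unfold Sing at hx'
  push Not at hx'
  obtain ⟨ρ, hρ, hf⟩ := hx'
  refine ⟨ρ / 2, by linarith, fun y hy hs => ?_⟩
  have hs' : Sing B y := hs
  refine hs' (ρ / 2) (by linarith) (hf.subset ?_)
  rintro b ⟨hb, hb'⟩
  refine ⟨hb, ?_⟩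
  rw [mem_ball, dist_eq_norm] at hy
  have := tri x y b.1
  linarith

omit [NormedSpace ℝ X] in
theorem C_closed (B : Set (X × ℝ)) (hB : LocNull B) (δ : ℝ) (hδ : 0 < δ) :
    IsClosed {x : X | ∃ b ∈ B, δ ≤ b.2 ∧ ‖x - b.1‖ ≤ b.2} := by
  rw [← isOpen_compl_iff, Metric.isOpen_iff]
  intro x hx
  have hx' : ¬ ∃ b ∈ B, δ ≤ b.2 ∧ ‖x - b.1‖ ≤ b.2 := hx
  obtain ⟨ρ, hρ, hf⟩ := hB x δ hδ
  have hpos : ∀ b ∈ hf.toFinset, 0 < ‖x - b.1‖ - b.2 := by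
    intro b hb
    rw [Set.Finite.mem_toFinset] at hb
    obtain ⟨hb1, hb2, -⟩ := hb
    by_contra hcon
    exact hx' ⟨b, hb1, hb2, by linarith⟩
  have hev : ∀ᶠ t in 𝓝[>] (0 : ℝ), ∀ b ∈ hf.toFinset, t < ‖x - b.1‖ - b.2 :=
    (Filter.eventually_all_finset hf.toFinset).2 fun b hb =>
      mem_nhdsWithin_of_mem_nhds (Iio_mem_nhds (hpos b hb))
  have hev2 : ∀ᶠ t in 𝓝[>] (0 : ℝ), t < ρ := mem_nhdsWithin_of_mem_nhds (Iio_mem_nhds hρ)
  have hev3 : ∀ᶠ t in 𝓝[>] (0 : ℝ), 0 < t := eventually_mem_nhdsWithin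
  obtain ⟨t, ⟨ht1, ht2⟩, ht3⟩ := ((hev.and hev2).and hev3).exists
  refine ⟨t, ht3, fun y hy hyC => ?_⟩
  obtain ⟨b, hb1, hb2, hb3⟩ := hyC
  rw [mem_ball, dist_eq_norm] at hy
  have h1 := tri x y b.1
  have h2 : b ∈ hf.toFinset := by
    rw [Set.Finite.mem_toFinset]
    exact ⟨hb1, hb2, by linarith⟩
  have h3 := ht1 b h2
  linarith

theorem t_BAI : S_BAI.{u} := by
  intro X _ _ _ B hT hL hne
  have hS := sing_closed B
  have : CompleteSpace {x | Sing B x} := hS.completeSpace_coe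
  have : Nonempty {x | Sing B x} := by
    obtain ⟨x, hx⟩ := hne
    exact ⟨⟨x, hx⟩⟩
  have hpos : ∀ n : ℕ, (0 : ℝ) < 1 / ((n : ℝ) + 1) := fun n => by positivity
  obtain ⟨n, hn⟩ := nonempty_interior_of_iUnion_of_closed (X := {x | Sing B x})
    (f := fun n : ℕ => Subtype.val ⁻¹' {x : X | ∃ b ∈ B, 1 / ((n : ℝ) + 1) ≤ b.2 ∧ ‖x - b.1‖ ≤ b.2})
    (fun n => (C_closed B hL _ (hpos n)).preimage continuous_subtype_val) (by
      rw [Set.eq_univ_iff_forall]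
      rintro ⟨x, hx⟩
      obtain ⟨b, hb, hxb⟩ := hT.cov x
      obtain ⟨n, hn⟩ := exists_nat_one_div_lt (hT.pos b hb)
      exact Set.mem_iUnion.2 ⟨n, b, hb, hn.le, hxb⟩)
  obtain ⟨⟨q, hq⟩, hqi⟩ := hn
  rw [mem_interior_iff_mem_nhds, Metric.mem_nhds_iff] at hqi
  obtain ⟨ρ, hρ, hρ'⟩ := hqi
  refine ⟨1 / ((n : ℝ) + 1), hpos n, q, hq, ρ, hρ, fun x hx hxq => ?_⟩
  have : (⟨x, hx⟩ : {x | Sing B x}) ∈ Metric.ball (⟨q, hq⟩ : {x | Sing B x}) ρ := by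
    rw [mem_ball, Subtype.dist_eq, dist_eq_norm]
    exact hxq
  exact hρ' this

end Pool.Agent.N78.NT
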